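import Mathlib

set_option autoImplicit false

namespace Pool.Agent.H.MP_c2536d_co

open Finset

/-- expectation under the uniform measure on the cube -/
noncomputable def Ex {m : ℕ} (u : (Fin m → Bool) → ℝ) : ℝ := (∑ x, u x) / 2 ^ m

variable {m : ℕ}

theorem Ex_add (u v : (Fin m → Bool) → ℝ) : Ex (fun x => u x + v x) = Ex u + Ex v := by
  simp [Ex, sum_add_distrib, add_div]

theorem Ex_sub (u v : (Fin m → Bool) → ℝ) : Ex (fun x => u x - v x) = Ex u - Ex v := by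
  simp [Ex, sum_sub_distrib, sub_div]

theorem Ex_mul (c : ℝ) (u : (Fin m → Bool) → ℝ) : Ex (fun x => c * u x) = c * Ex u := by
  simp [Ex, ← mul_sum, mul_div_assoc]

theorem Ex_const (c : ℝ) : Ex (fun _ : Fin m → Bool => c) = c := by
  simp [Ex]

theorem Ex_mono {u v : (Fin m → Bool) → ℝ} (h : ∀ x, u x ≤ v x) : Ex u ≤ Ex v :=
  div_le_div_of_nonneg_right (sum_le_sum fun x _ => h x) (by positivity)

theorem Ex_nonneg {u : (Fin m → Bool) → ℝ} (h : ∀ x, 0 ≤ u x) : 0 ≤ Ex u := by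
  have := Ex_mono (u := fun _ => 0) h
  rwa [Ex_const] at this

theorem Ex_sum {ι : Type} (s : Finset ι) (u : ι → (Fin m → Bool) → ℝ) :
    Ex (fun x => ∑ i ∈ s, u i x) = ∑ i ∈ s, Ex (u i) := by
  simp only [Ex]
  rw [sum_comm, sum_div]

theorem Ex_congr {u v : (Fin m → Bool) → ℝ} (h : ∀ x, u x = v x) : Ex u = Ex v := by
  rw [funext h]

def Dep (p : Fin m → Prop) (u : (Fin m → Bool) → ℝ) : Prop :=
  ∀ x y, (∀ i, p i → x i = y i) → u x = u y

theorem Dep.mono {p q : Fin m → Prop} {u : (Fin m → Bool) → ℝ} (h : Dep p u)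
    (hpq : ∀ i, p i → q i) : Dep q u := fun x y hxy => h x y fun i hi => hxy i (hpq i hi)

theorem Dep.comp {p : Fin m → Prop} {u : (Fin m → Bool) → ℝ} (h : Dep p u) (g : ℝ → ℝ) :
    Dep p (fun x => g (u x)) := fun x y hxy => by simp only [h x y hxy]

theorem Dep.sum {ι : Type} {p : Fin m → Prop} (s : Finset ι) {u : ι → (Fin m → Bool) → ℝ}
    (h : ∀ i ∈ s, Dep p (u i)) : Dep p (fun x => ∑ i ∈ s, u i x) :=
  fun x y hxy => sum_congr rfl fun i hi => h i hi x y hxy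

open Classical in
noncomputable def mix (p : Fin m → Prop) (x y : Fin m → Bool) : Fin m → Bool :=
  fun i => if p i then x i else y i

theorem Ex_mix (p : Fin m → Prop) (φ : (Fin m → Bool) → ℝ) :
    Ex (fun x => Ex (fun y => φ (mix p x y))) = Ex φ := by
  have inv : Function.Involutive
      (fun z : (Fin m → Bool) × (Fin m → Bool) => (mix p z.1 z.2, mix p z.2 z.1)) := by
    rintro ⟨x, y⟩
    ext i <;> by_cases h : p i <;> simp [mix, h]
  have h := Equiv.sum_comp inv.toPerm (fun z => φ z.1)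
  rw [Fintype.sum_prod_type, Fintype.sum_prod_type] at h
  simp only [Function.Involutive.coe_toPerm] at h
  simp only [Ex]
  rw [← sum_div, h]
  simp only [sum_const, card_univ, Fintype.card_pi, Fintype.card_bool, prod_const,
    Fintype.card_fin, nsmul_eq_mul, ← mul_sum]
  push_cast
  field_simp

theorem ind {p : Fin m → Prop} {u v : (Fin m → Bool) → ℝ} (hu : Dep p u)
    (hv : Dep (fun i => ¬ p i) v) : Ex (fun x => u x * v x) = Ex u * Ex v := by
  rw [← Ex_mix p]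
  have : ∀ x y, u (mix p x y) * v (mix p x y) = u x * v y := by
    intro x y
    rw [hu (mix p x y) x (fun i hi => by simp [mix, hi]),
      hv (mix p x y) y (fun i hi => by simp [mix, hi])]
  simp only [this, Ex_mul]
  rw [mul_comm, ← Ex_mul]
  exact Ex_congr fun x => mul_comm _ _

noncomputable def cond (p : Fin m → Prop) (ψ : (Fin m → Bool) → ℝ) (x : Fin m → Bool) : ℝ :=
  Ex (fun y => ψ (mix p x y))

theorem cond_dep (p : Fin m → Prop) (ψ : (Fin m → Bool) → ℝ) : Dep p (cond p ψ) := by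
  intro x y h
  refine Ex_congr fun z => ?_
  congr 1
  funext i
  by_cases hi : p i <;> simp [mix, hi, h]

theorem cond_mul {p : Fin m → Prop} (ψ : (Fin m → Bool) → ℝ) {u : (Fin m → Bool) → ℝ}
    (hu : Dep p u) : Ex (fun x => u x * cond p ψ x) = Ex (fun x => u x * ψ x) := by
  rw [← Ex_mix p (fun x => u x * ψ x)]
  refine Ex_congr fun x => ?_
  rw [cond, ← Ex_mul]
  refine Ex_congr fun y => ?_
  rw [hu (mix p x y) x (fun i hi => by simp [mix, hi])]

theorem cond_bd (p : Fin m → Prop) {ψ : (Fin m → Bool) → ℝ} (h : ∀ x, -1 ≤ ψ x ∧ ψ x ≤ 1)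
    (x : Fin m → Bool) : -1 ≤ cond p ψ x ∧ cond p ψ x ≤ 1 := by
  constructor
  · have := Ex_mono (u := fun _ => -1) (v := fun y => ψ (mix p x y)) fun y => (h _).1
    rwa [Ex_const] at this
  · have := Ex_mono (v := fun _ => 1) (u := fun y => ψ (mix p x y)) fun y => (h _).2
    rwa [Ex_const] at this

variable {n : ℕ} {blk : Fin m → Fin n}

theorem orth {u : Fin n → (Fin m → Bool) → ℝ} (hd : ∀ j, Dep (fun i => blk i = j) (u j))
    (h0 : ∀ j, Ex (u j) = 0) (A : Finset (Fin n)) :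
    Ex (fun x => (∑ j ∈ A, u j x) ^ 2) = ∑ j ∈ A, Ex (fun x => u j x ^ 2) := by
  simp only [sq, sum_mul_sum, Ex_sum]
  refine sum_congr rfl fun j hj => ?_
  rw [sum_eq_single_of_mem j hj]
  intro k _ hk
  rw [ind (hd j) ((hd k).mono fun i hi h => hk (hi.symm.trans h)), h0, zero_mul]

theorem dep_in {u : Fin n → (Fin m → Bool) → ℝ} (hd : ∀ j, Dep (fun i => blk i = j) (u j))
    (A : Finset (Fin n)) : Dep (fun i => blk i ∈ A) (fun x => ∑ j ∈ A, u j x) :=
  Dep.sum A fun j hj => (hd j).mono fun i hi => by rw [hi]; exact hj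

theorem dep_out {u : Fin n → (Fin m → Bool) → ℝ} (hd : ∀ j, Dep (fun i => blk i = j) (u j))
    (A : Finset (Fin n)) : Dep (fun i => ¬ blk i ∈ A) (fun x => ∑ j ∈ Aᶜ, u j x) :=
  Dep.sum _ fun j hj => (hd j).mono fun i hi => by rw [hi]; exact mem_compl.1 hj

theorem dep_er {u : Fin n → (Fin m → Bool) → ℝ} (hd : ∀ j, Dep (fun i => blk i = j) (u j))
    (k : Fin n) : Dep (fun i => ¬ blk i = k) (fun x => ∑ j ∈ univ.erase k, u j x) :=
  Dep.sum _ fun j hj => (hd j).mono fun i hi => by rw [hi]; exact (mem_erase.1 hj).1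

theorem pt1 (a t L : ℝ) (ht : |t| ≤ 2) :
    t * (max (a + t - L) 0 ^ 3 - max (a - L) 0 ^ 3) ≤ 3 * (t ^ 2 * max (a + 2 - L) 0 ^ 2) := by
  obtain ⟨h1, h2⟩ := abs_le.1 ht
  set u := max (a + t - L) 0 with hu
  set v := max (a - L) 0 with hv
  set w := max (a + 2 - L) 0 with hw
  have u0 : 0 ≤ u := le_max_right _ _
  have v0 : 0 ≤ v := le_max_right _ _
  have uw : u ≤ w := max_le_max (by linarith) le_rfl
  have vw : v ≤ w := max_le_max (by linarith) le_rfl
  have d : |u - v| ≤ |t| := by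
    have := abs_max_sub_max_le_abs (a + t - L) (a - L) 0
    rwa [show a + t - L - (a - L) = t by ring] at this
  have e : t * (u - v) ≤ t ^ 2 := by
    calc t * (u - v) ≤ |t * (u - v)| := le_abs_self _
      _ = |t| * |u - v| := abs_mul _ _
      _ ≤ |t| * |t| := mul_le_mul_of_nonneg_left d (abs_nonneg _)
      _ = t ^ 2 := by rw [abs_mul_abs_self]; ring
  have q0 : 0 ≤ u ^ 2 + u * v + v ^ 2 := by positivity
  have q1 : u ^ 2 + u * v + v ^ 2 ≤ 3 * w ^ 2 := by nlinarith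
  calc t * (u ^ 3 - v ^ 3) = (t * (u - v)) * (u ^ 2 + u * v + v ^ 2) := by ring
    _ ≤ t ^ 2 * (u ^ 2 + u * v + v ^ 2) := mul_le_mul_of_nonneg_right e q0
    _ ≤ t ^ 2 * (3 * w ^ 2) := mul_le_mul_of_nonneg_left q1 (sq_nonneg _)
    _ = _ := by ring

theorem stein {X : Fin n → (Fin m → Bool) → ℝ} (hd : ∀ j, Dep (fun i => blk i = j) (X j))
    (h0 : ∀ j, Ex (X j) = 0) (hb : ∀ j x, |X j x| ≤ 2) (L : ℝ) (hL : 0 ≤ L)
    (hV : ∑ j, Ex (fun x => X j x ^ 2) ≤ 1) :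
    Ex (fun x => max ((∑ j, X j x) - L) 0 ^ 4)
      ≤ 3 * Ex (fun x => max ((∑ j, X j x) + 4 - L) 0 ^ 2) := by
  set T := Ex (fun x => max ((∑ j, X j x) + 4 - L) 0 ^ 2) with hT
  have T0 : 0 ≤ T := Ex_nonneg fun x => sq_nonneg _
  have sp : ∀ j x, ∑ k, X k x = (∑ k ∈ univ.erase j, X k x) + X j x := fun j x =>
    (sum_erase_add _ _ (mem_univ j)).symm
  have key : ∀ j, Ex (fun x => X j x * max ((∑ k, X k x) - L) 0 ^ 3)
      ≤ 3 * (Ex (fun x => X j x ^ 2) * T) := by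
    intro j
    have a1 : Ex (fun x => X j x * max ((∑ k ∈ univ.erase j, X k x) - L) 0 ^ 3) = 0 := by
      rw [ind (hd j) ((dep_er hd j).comp (fun s => max (s - L) 0 ^ 3)), h0, zero_mul]
    have a2 := ind ((hd j).comp (fun s => s ^ 2))
      ((dep_er hd j).comp (fun s => max (s + 2 - L) 0 ^ 2))
    have a3 : Ex (fun x => max ((∑ k ∈ univ.erase j, X k x) + 2 - L) 0 ^ 2) ≤ T := by
      refine Ex_mono fun x => pow_le_pow_left₀ (le_max_right _ _) (max_le_max ?_ le_rfl) 2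
      rw [sp j x]
      linarith [(abs_le.1 (hb j x)).1]
    have a4 := Ex_mono fun x => pt1 (∑ k ∈ univ.erase j, X k x) (X j x) L (hb j x)
    simp only [mul_sub, Ex_sub, Ex_mul, ← sp] at a4
    rw [a1, a2] at a4
    have a5 : 0 ≤ Ex (fun x => X j x ^ 2) := Ex_nonneg fun x => sq_nonneg _
    nlinarith [mul_le_mul_of_nonneg_left a3 a5]
  calc _ ≤ Ex (fun x => ∑ j, X j x * max ((∑ k, X k x) - L) 0 ^ 3) := by
        refine Ex_mono fun x => ?_
        rw [← sum_mul]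
        rcases le_total ((∑ j, X j x) - L) 0 with h | h
        · simp [max_eq_right h]
        · rw [max_eq_left h]
          nlinarith [mul_nonneg hL (pow_nonneg h 3)]
    _ ≤ ∑ j, 3 * (Ex (fun x => X j x ^ 2) * T) := by
        rw [Ex_sum]; exact sum_le_sum fun j _ => key j
    _ = 3 * ((∑ j, Ex (fun x => X j x ^ 2)) * T) := by rw [← mul_sum, ← sum_mul]
    _ ≤ _ := by nlinarith

theorem pt2 (f g : ℝ) (hf : f = 1 ∨ f = -1) :
    (g ^ 2 - 1) ^ 2 ≤ 144 * (f - g) ^ 2 + (16 * max (g - 5) 0 ^ 4 + 16 * max (-g - 5) 0 ^ 4) := by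
  have p1 : 0 ≤ max (g - 5) 0 ^ 4 := by positivity
  have p2 : 0 ≤ max (-g - 5) 0 ^ 4 := by positivity
  have p3 := sq_nonneg (f - g)
  by_cases h1 : 11 < g
  · rw [max_eq_left (by linarith : 0 ≤ g - 5)]
    have : g ^ 2 - 1 ≤ 4 * (g - 5) ^ 2 := by nlinarith
    have h3 : (g ^ 2 - 1) ^ 2 ≤ (4 * (g - 5) ^ 2) ^ 2 := pow_le_pow_left₀ (by nlinarith) this 2
    nlinarith
  by_cases h2 : g < -11
  · rw [max_eq_left (by linarith : 0 ≤ -g - 5)]
    have : g ^ 2 - 1 ≤ 4 * (-g - 5) ^ 2 := by nlinarith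
    have h3 : (g ^ 2 - 1) ^ 2 ≤ (4 * (-g - 5) ^ 2) ^ 2 := pow_le_pow_left₀ (by nlinarith) this 2
    nlinarith
  have e : (g ^ 2 - 1) ^ 2 = (f + g) ^ 2 * (f - g) ^ 2 := by
    rcases hf with rfl | rfl <;> ring
  have e2 : (f + g) ^ 2 ≤ 144 := by
    rcases hf with rfl | rfl <;> nlinarith
  nlinarith [mul_le_mul_of_nonneg_right e2 p3]

theorem phi_bd {X : Fin n → (Fin m → Bool) → ℝ} (hd : ∀ j, Dep (fun i => blk i = j) (X j))
    (h0 : ∀ j, Ex (X j) = 0) (hb : ∀ j x, |X j x| ≤ 2)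
    (hV : ∑ j, Ex (fun x => X j x ^ 2) ≤ 1) (μ : ℝ) (hμ : |μ| ≤ 1)
    (f : (Fin m → Bool) → ℝ) (hf : ∀ x, f x = 1 ∨ f x = -1) :
    Ex (fun x => ((μ + ∑ j, X j x) ^ 2 - 1) ^ 2)
      ≤ 240 * Ex (fun x => (f x - (μ + ∑ j, X j x)) ^ 2) := by
  obtain ⟨m1, m2⟩ := abs_le.1 hμ
  have s1 := stein hd h0 hb (5 - μ) (by linarith) hV
  have s2 := stein (X := fun j x => -X j x) (fun j => (hd j).comp (fun s => -s))
    (fun j => by
      have := Ex_mul (-1) (X j)
      simp only [neg_mul, one_mul] at this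
      rw [this, h0, neg_zero])
    (fun j x => by rw [abs_neg]; exact hb j x) (5 + μ) (by linarith) (by simpa using hV)
  have b := Ex_mono fun x => pt2 (f x) (μ + ∑ j, X j x) (hf x)
  simp only [Ex_add, Ex_mul] at b
  have c1 : Ex (fun x => max ((∑ j, X j x) + 4 - (5 - μ)) 0 ^ 2)
      ≤ Ex (fun x => (f x - (μ + ∑ j, X j x)) ^ 2) := by
    refine Ex_mono fun x => ?_
    rcases le_total ((∑ j, X j x) + 4 - (5 - μ)) 0 with h | h
    · rw [max_eq_right h]; nlinarith [sq_nonneg (f x - (μ + ∑ j, X j x))]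
    · rw [max_eq_left h]; rcases hf x with h' | h' <;> rw [h'] <;> nlinarith
  have c2 : Ex (fun x => max ((∑ j, -X j x) + 4 - (5 + μ)) 0 ^ 2)
      ≤ Ex (fun x => (f x - (μ + ∑ j, X j x)) ^ 2) := by
    refine Ex_mono fun x => ?_
    rw [sum_neg_distrib]
    rcases le_total (-(∑ j, X j x) + 4 - (5 + μ)) 0 with h | h
    · rw [max_eq_right h]; nlinarith [sq_nonneg (f x - (μ + ∑ j, X j x))]
    · rw [max_eq_left h]; rcases hf x with h' | h' <;> rw [h'] <;> nlinarith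
  have d1 : Ex (fun x => max (μ + ∑ j, X j x - 5) 0 ^ 4)
      = Ex (fun x => max ((∑ j, X j x) - (5 - μ)) 0 ^ 4) :=
    Ex_congr fun x => by congr 2; ring
  have d2 : Ex (fun x => max (-(μ + ∑ j, X j x) - 5) 0 ^ 4)
      = Ex (fun x => max ((∑ j, -X j x) - (5 + μ)) 0 ^ 4) :=
    Ex_congr fun x => by rw [sum_neg_distrib]; congr 2; ring
  rw [d1, d2] at b
  linarith

end Pool.Agent.H.MP_c2536d_co
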