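import Mathlib
import Pool.Agent.H.MP_c2536d_co.A

set_option autoImplicit false

namespace Pool.Agent.H.MP_c2536d_co

open Finset

variable {m n : ℕ} {blk : Fin m → Fin n}

theorem first {X : Fin n → (Fin m → Bool) → ℝ} (hd : ∀ j, Dep (fun i => blk i = j) (X j))
    (h0 : ∀ j, Ex (X j) = 0) (μ : ℝ) :
    ∑ j, Ex (fun x => (X j x ^ 2 + 2 * μ * X j x - Ex (fun y => X j y ^ 2)) ^ 2)
      ≤ Ex (fun x => ((μ + ∑ j, X j x) ^ 2 - 1) ^ 2) := by
  set P : Fin n → (Fin m → Bool) → ℝ :=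
    fun j x => X j x ^ 2 + 2 * μ * X j x - Ex (fun y => X j y ^ 2) with hP
  have Pd : ∀ j, Dep (fun i => blk i = j) (P j) := fun j =>
    (hd j).comp (fun s => s ^ 2 + 2 * μ * s - Ex (fun y => X j y ^ 2))
  have P0 : ∀ j, Ex (P j) = 0 := by
    intro j
    simp only [hP, Ex_sub, Ex_add, Ex_mul, Ex_const, h0]
    ring
  have sp : ∀ j x, ∑ k, X k x = (∑ k ∈ univ.erase j, X k x) + X j x := fun j x =>
    (sum_erase_add _ _ (mem_univ j)).symm
  have key : ∀ j, Ex (fun x => ((μ + ∑ k, X k x) ^ 2 - 1) * P j x) = Ex (fun x => P j x ^ 2) := by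
    intro j
    have a1 := ind (u := fun x => (μ + X j x) * P j x)
      (fun x y h => by simp only [hd j x y h, Pd j x y h]) (dep_er hd j)
    have a2 := ind (Pd j) ((dep_er hd j).comp (fun s => s ^ 2))
    rw [Ex_sum] at a1
    simp only [h0, sum_const_zero, mul_zero] at a1
    rw [P0, zero_mul] at a2
    have : ∀ x, ((μ + ∑ k, X k x) ^ 2 - 1) * P j x = P j x ^ 2 +
        ((Ex (fun y => X j y ^ 2) + μ ^ 2 - 1) * P j x +
        (2 * ((μ + X j x) * P j x * ∑ k ∈ univ.erase j, X k x) +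
          P j x * (∑ k ∈ univ.erase j, X k x) ^ 2)) := by
      intro x
      rw [sp j x]
      simp only [hP]
      ring
    rw [Ex_congr this]
    simp only [Ex_add, Ex_mul]
    rw [a1, a2, P0]
    ring
  have o := orth Pd P0 univ
  have z := Ex_nonneg fun x => sq_nonneg (((μ + ∑ k, X k x) ^ 2 - 1) - ∑ j, P j x)
  have : ∀ x, (((μ + ∑ k, X k x) ^ 2 - 1) - ∑ j, P j x) ^ 2 = ((μ + ∑ k, X k x) ^ 2 - 1) ^ 2 +
      ((∑ j, P j x) ^ 2 - 2 * ∑ j, ((μ + ∑ k, X k x) ^ 2 - 1) * P j x) := by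
    intro x; rw [← mul_sum]; ring
  rw [Ex_congr this, Ex_add, Ex_sub, Ex_mul, Ex_sum, o] at z
  simp only [key] at z
  change ∑ j, Ex (fun x => P j x ^ 2) ≤ _
  linarith

theorem two {p : Fin m → Prop} {a b : (Fin m → Bool) → ℝ} (da : Dep p a)
    (db : Dep (fun i => ¬ p i) b) (a0 : Ex a = 0) (b0 : Ex b = 0) (μ : ℝ) :
    4 * (Ex (fun x => a x ^ 2) * Ex (fun x => b x ^ 2))
      ≤ Ex (fun x => ((μ + (a x + b x)) ^ 2 - 1) ^ 2) := by
  have i1 := ind (da.comp (fun s => ((μ + s) ^ 2 - 1) * s)) db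
  have i2 := ind (da.comp (fun s => s ^ 2)) (db.comp (fun s => s ^ 2))
  have i3 := ind da (db.comp (fun s => s ^ 2))
  have i4 := ind da (db.comp (fun s => s ^ 3))
  rw [b0, mul_zero] at i1
  rw [a0, zero_mul] at i3 i4
  have z := Ex_nonneg fun x => sq_nonneg (((μ + (a x + b x)) ^ 2 - 1) - 2 * (a x * b x))
  have : ∀ x, (((μ + (a x + b x)) ^ 2 - 1) - 2 * (a x * b x)) ^ 2
      = ((μ + (a x + b x)) ^ 2 - 1) ^ 2 + (-4 * (a x ^ 2 * b x ^ 2) +
        (-4 * ((((μ + a x) ^ 2 - 1) * a x) * b x) + (-8 * μ * (a x * b x ^ 2)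
          + -4 * (a x * b x ^ 3)))) := by
    intro x; ring
  rw [Ex_congr this] at z
  simp only [Ex_add, Ex_mul] at z
  rw [i1, i2, i3, i4] at z
  linarith

theorem second {X : Fin n → (Fin m → Bool) → ℝ} (hd : ∀ j, Dep (fun i => blk i = j) (X j))
    (h0 : ∀ j, Ex (X j) = 0) (μ : ℝ) (A : Finset (Fin n)) :
    4 * ((∑ j ∈ A, Ex (fun x => X j x ^ 2)) * ∑ j ∈ Aᶜ, Ex (fun x => X j x ^ 2))
      ≤ Ex (fun x => ((μ + ∑ j, X j x) ^ 2 - 1) ^ 2) := by
  rw [← orth hd h0, ← orth hd h0]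
  have da := dep_in hd A
  have db := dep_out hd A
  have a0 : Ex (fun x => ∑ j ∈ A, X j x) = 0 := by rw [Ex_sum]; simp [h0]
  have b0 : Ex (fun x => ∑ j ∈ Aᶜ, X j x) = 0 := by rw [Ex_sum]; simp [h0]
  have sp : ∀ x, ∑ k, X k x = ∑ j ∈ A, X j x + ∑ j ∈ Aᶜ, X j x := fun x =>
    (sum_add_sum_compl _ _).symm
  simp only [sp]
  exact two da db a0 b0 μ

theorem pick (σ : Fin n → ℝ) (Φ : ℝ) (hV : 0 < ∑ j, σ j) (hσ : ∀ j, 0 ≤ σ j)
    (h : ∀ A : Finset (Fin n), 4 * ((∑ j ∈ A, σ j) * ∑ j ∈ Aᶜ, σ j) ≤ Φ) :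
    ∃ k, (∑ j ∈ univ.erase k, σ j) * ∑ j, σ j ≤ Φ := by
  obtain ⟨A, hA, hmax⟩ := exists_max_image
    (univ.filter fun A : Finset (Fin n) => 2 * ∑ j ∈ A, σ j ≤ ∑ j, σ j) card
    ⟨∅, by simpa using hV.le⟩
  simp only [mem_filter, mem_univ, true_and] at hA hmax
  have : ∃ k, k ∉ A := by
    by_contra hc
    push Not at hc
    rw [eq_univ_of_forall hc] at hA
    linarith
  obtain ⟨k, hk⟩ := this
  refine ⟨k, ?_⟩
  have h1 : ∑ j, σ j < 2 * ∑ j ∈ insert k A, σ j := by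
    by_contra hc
    have := hmax _ (not_lt.1 hc)
    rw [card_insert_of_notMem hk] at this
    omega
  have h2 := h A
  have h3 := h (insert k A)
  have e1 := sum_add_sum_compl A σ
  have e2 := sum_add_sum_compl (insert k A) σ
  have e3 := sum_insert (f := σ) hk
  have e4 := sum_erase_add univ σ (mem_univ k)
  have p1 : 0 ≤ ∑ j ∈ A, σ j := sum_nonneg fun j _ => hσ j
  have p2 : 0 ≤ ∑ j ∈ (insert k A)ᶜ, σ j := sum_nonneg fun j _ => hσ j
  have e5 : ∑ j ∈ univ.erase k, σ j = ∑ j ∈ A, σ j + ∑ j ∈ (insert k A)ᶜ, σ j := by linarith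
  rw [e5]
  nlinarith [mul_le_mul_of_nonneg_left h1.le p2,
    mul_le_mul_of_nonneg_left (show ∑ j, σ j ≤ 2 * ∑ j ∈ Aᶜ, σ j by linarith) p1]

theorem pt3 (μ σ : ℝ) (hσ : 0 ≤ σ) (hμ : μ ≤ -23 / 24) :
    ∃ r, -σ ≤ r ∧ r ≤ 0 ∧ ∀ X : ℝ, X ≤ 1 / 2 → (X - r) ^ 2 ≤ (X ^ 2 + 2 * μ * X - σ) ^ 2 := by
  have hs := Real.sq_sqrt (show 0 ≤ μ ^ 2 + σ by positivity)
  have h0 := Real.sqrt_nonneg (μ ^ 2 + σ)
  set s := Real.sqrt (μ ^ 2 + σ)
  have h1 : -μ ≤ s := by nlinarith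
  refine ⟨-μ - s, by nlinarith, by linarith, fun X hX => ?_⟩
  have : X ^ 2 + 2 * μ * X - σ = (X - (-μ - s)) * (X + μ - s) := by nlinarith
  rw [this, mul_pow]
  have : 1 ≤ (X + μ - s) ^ 2 := by nlinarith
  nlinarith [sq_nonneg (X - (-μ - s))]

theorem caseA {X : Fin n → (Fin m → Bool) → ℝ} (hd : ∀ j, Dep (fun i => blk i = j) (X j))
    (h0 : ∀ j, Ex (X j) = 0) (μ : ℝ) (hμ : μ ≤ -23 / 24) (hμ' : -1 ≤ μ)
    (hV : ∑ j, Ex (fun x => X j x ^ 2) ≤ 1 / 12)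
    (f : (Fin m → Bool) → ℝ) (hf : ∀ x, f x = 1 ∨ f x = -1) :
    Ex (fun x => (f x - (if ∃ j, 1 / 2 < X j x then 1 else -1)) ^ 2)
      ≤ 128 * (Ex (fun x => (f x - (μ + ∑ j, X j x)) ^ 2)
        + Ex (fun x => ((μ + ∑ j, X j x) ^ 2 - 1) ^ 2)) := by
  have σ0 : ∀ j, 0 ≤ Ex (fun x => X j x ^ 2) := fun j => Ex_nonneg fun x => sq_nonneg _
  choose r r1 r2 r3 using fun j => pt3 μ _ (σ0 j) hμ
  set Z : Fin n → (Fin m → Bool) → ℝ := fun j x => if 1 / 2 < X j x then 0 else X j x - r j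
    with hZ
  set H : Fin n → (Fin m → Bool) → ℝ := fun j x => if 1 / 2 < X j x then X j x - r j else 0
    with hH
  have ZH : ∀ j x, X j x = r j + (Z j x + H j x) := by
    intro j x; simp only [hZ, hH]; split_ifs <;> ring
  have EZ : ∀ j, r j + (Ex (Z j) + Ex (H j)) = 0 := by
    intro j
    rw [← h0 j, Ex_congr (ZH j), Ex_add, Ex_add, Ex_const]
  have H0 : ∀ j x, 0 ≤ H j x := by
    intro j x; simp only [hH]; split_ifs with h
    · linarith [r2 j]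
    · exact le_rfl
  have EH : ∀ j, Ex (H j) ≤ 3 * Ex (fun x => X j x ^ 2) := by
    intro j
    have : Ex (H j) ≤ Ex (fun x => 2 * X j x ^ 2 + Ex (fun x => X j x ^ 2)) := by
      refine Ex_mono fun x => ?_
      simp only [hH]; split_ifs with h
      · nlinarith [r1 j]
      · nlinarith [σ0 j, sq_nonneg (X j x)]
    rw [Ex_add, Ex_mul, Ex_const] at this
    linarith
  have M1 : ∑ j, Ex (H j) ≤ 1 / 4 := by
    have := sum_le_sum (s := univ) fun j _ => EH j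
    rw [← mul_sum] at this
    linarith
  have M0 : 0 ≤ ∑ j, Ex (H j) := sum_nonneg fun j _ => Ex_nonneg (H0 j)
  have o := orth (blk := blk) (u := fun j x => Z j x - Ex (Z j))
    (fun j => (hd j).comp (fun s => (if 1 / 2 < s then 0 else s - r j) - Ex (Z j)))
    (fun j => by rw [Ex_sub, Ex_const, sub_self]) univ
  have o2 : ∀ j, Ex (fun x => (Z j x - Ex (Z j)) ^ 2)
      ≤ Ex (fun x => (X j x ^ 2 + 2 * μ * X j x - Ex (fun y => X j y ^ 2)) ^ 2) := by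
    intro j
    have : ∀ x, (Z j x - Ex (Z j)) ^ 2 = Z j x ^ 2 + (-2 * Ex (Z j) * Z j x + Ex (Z j) ^ 2) := by
      intro x; ring
    rw [Ex_congr this, Ex_add, Ex_add, Ex_mul, Ex_const]
    have : Ex (fun x => Z j x ^ 2)
        ≤ Ex (fun x => (X j x ^ 2 + 2 * μ * X j x - Ex (fun y => X j y ^ 2)) ^ 2) := by
      refine Ex_mono fun x => ?_
      simp only [hZ]; split_ifs with h
      · nlinarith [sq_nonneg (X j x ^ 2 + 2 * μ * X j x - Ex (fun y => X j y ^ 2))]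
      · exact r3 j _ (not_lt.1 h)
    nlinarith [sq_nonneg (Ex (Z j))]
  have o3 := (sum_le_sum (s := univ) fun j _ => o2 j).trans (first hd h0 μ)
  rw [← o] at o3
  have pt : ∀ x, (f x - (if ∃ j, 1 / 2 < X j x then 1 else -1)) ^ 2
      ≤ 128 * ((f x - (μ + ∑ j, X j x)) ^ 2 + (∑ j, (Z j x - Ex (Z j))) ^ 2) := by
    intro x
    have e : ∑ j, X j x = ∑ j, (Z j x - Ex (Z j)) + (∑ j, H j x - ∑ j, Ex (H j)) := by
      rw [← sum_sub_distrib, ← sum_add_distrib]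
      refine sum_congr rfl fun j _ => ?_
      linarith [ZH j x, EZ j]
    rw [e]
    set R := ∑ j, (Z j x - Ex (Z j))
    set M := ∑ j, Ex (H j)
    split_ifs with h
    · obtain ⟨j, hj⟩ := h
      have h1 : H j x ≤ ∑ j, H j x := single_le_sum (fun k _ => H0 k x) (mem_univ j)
      have h2 : 1 / 2 ≤ H j x := by
        simp only [hH, if_pos hj]; linarith [r2 j]
      set T := ∑ j, H j x
      rcases hf x with h' | h' <;> rw [h']
      · nlinarith [sq_nonneg (1 - (μ + (R + (T - M)))), sq_nonneg R]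
      · have : 1 / 4 ≤ μ + (T - M) + 1 := by linarith
        nlinarith [sq_nonneg (-1 - (μ + (R + (T - M))) - R)]
    · have : ∑ j, H j x = 0 := sum_eq_zero fun j _ => by
        simp only [hH, if_neg (fun hj => h ⟨j, hj⟩)]
      rw [this]
      rcases hf x with h' | h' <;> rw [h']
      · have : 1 ≤ 1 - μ + M := by linarith
        nlinarith [sq_nonneg (1 - (μ + (R + (0 - M))) - R)]
      · nlinarith [sq_nonneg (-1 - (μ + (R + (0 - M)))), sq_nonneg R]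
  have := Ex_mono pt
  rw [Ex_mul, Ex_add] at this
  linarith

theorem caseB {X : Fin n → (Fin m → Bool) → ℝ} (hd : ∀ j, Dep (fun i => blk i = j) (X j))
    (h0 : ∀ j, Ex (X j) = 0) (μ : ℝ) (hV : 1 / 48 ≤ ∑ j, Ex (fun x => X j x ^ 2))
    (f : (Fin m → Bool) → ℝ) (hf : ∀ x, f x = 1 ∨ f x = -1) :
    ∃ k, Ex (fun x => (f x - (if 0 < μ + X k x then 1 else -1)) ^ 2)
      ≤ 8 * Ex (fun x => (f x - (μ + ∑ j, X j x)) ^ 2)
        + 384 * Ex (fun x => ((μ + ∑ j, X j x) ^ 2 - 1) ^ 2) := by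
  have σ0 : ∀ j, 0 ≤ Ex (fun x => X j x ^ 2) := fun j => Ex_nonneg fun x => sq_nonneg _
  obtain ⟨k, hk⟩ := pick _ _ (by linarith) σ0 (second hd h0 μ)
  refine ⟨k, ?_⟩
  have T0 : 0 ≤ ∑ j ∈ univ.erase k, Ex (fun x => X j x ^ 2) := sum_nonneg fun j _ => σ0 j
  have h1 := mul_le_mul_of_nonneg_left hV T0
  rw [← orth hd h0] at h1 hk
  have pt : ∀ x, (f x - (if 0 < μ + X k x then 1 else -1)) ^ 2
      ≤ 8 * ((f x - (μ + ∑ j, X j x)) ^ 2 + (∑ j ∈ univ.erase k, X j x) ^ 2) := by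
    intro x
    rw [← sum_erase_add _ _ (mem_univ k)]
    set S := ∑ j ∈ univ.erase k, X j x
    split_ifs with h <;> rcases hf x with h' | h' <;> rw [h']
    · nlinarith [sq_nonneg (1 - (μ + (S + X k x))), sq_nonneg S]
    · nlinarith [sq_nonneg (-1 - (μ + (S + X k x)) - S)]
    · nlinarith [sq_nonneg (1 - (μ + (S + X k x)) - S)]
    · nlinarith [sq_nonneg (-1 - (μ + (S + X k x))), sq_nonneg S]
  have := Ex_mono pt
  rw [Ex_mul, Ex_add] at this
  linarith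

theorem core (f : (Fin m → Bool) → ℝ) (hf : ∀ x, f x = 1 ∨ f x = -1) (hμ : Ex f ≤ 0) (ε : ℝ)
    (hε : 1 - ε ≤ Ex f ^ 2 + ∑ j, Ex (fun x => (cond (fun i => blk i = j) f x - Ex f) ^ 2)) :
    ∃ h : Fin n → (Fin m → Bool) → Prop,
      (∀ j x y, (∀ i, blk i = j → x i = y i) → (h j x ↔ h j y)) ∧
      ∀ o : (Fin m → Bool) → ℝ, (∀ x, (∃ j, h j x) → o x = 1) → (∀ x, (¬ ∃ j, h j x) → o x = -1) →
        Ex (fun x => (f x - o x) ^ 2) ≤ 100000 * ε := by
  set μ := Ex f with hμd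
  set X : Fin n → (Fin m → Bool) → ℝ := fun j x => cond (fun i => blk i = j) f x - μ with hX
  have fb : ∀ x, -1 ≤ f x ∧ f x ≤ 1 := fun x => by
    rcases hf x with h | h <;> rw [h] <;> norm_num
  have hd : ∀ j, Dep (fun i => blk i = j) (X j) := fun j => (cond_dep _ f).comp (fun s => s - μ)
  have h0 : ∀ j, Ex (X j) = 0 := by
    intro j
    simp only [hX]
    rw [Ex_sub, Ex_const]
    exact sub_eq_zero.2 (Ex_mix _ f)
  have m1 : -1 ≤ μ := by
    have := Ex_mono (u := fun _ => -1) fun x => (fb x).1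
    rwa [Ex_const] at this
  have hb : ∀ j x, |X j x| ≤ 2 := by
    intro j x
    have := cond_bd (fun i => blk i = j) fb x
    simp only [hX]
    rw [abs_le]; constructor <;> linarith [this.1, this.2]
  have fX : ∀ j, Ex (fun x => X j x * f x) = Ex (fun x => X j x ^ 2) := by
    intro j
    rw [← cond_mul f (hd j)]
    have : ∀ x, X j x * cond (fun i => blk i = j) f x = X j x ^ 2 + μ * X j x := by
      intro x; simp only [hX]; ring
    rw [Ex_congr this, Ex_add, Ex_mul, h0]; ring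
  set V := ∑ j, Ex (fun x => X j x ^ 2) with hVd
  set e := Ex (fun x => (f x - (μ + ∑ j, X j x)) ^ 2) with he
  have e0 : 0 ≤ e := Ex_nonneg fun x => sq_nonneg _
  have ee : e = 1 - μ ^ 2 - V := by
    have : ∀ x, (f x - (μ + ∑ j, X j x)) ^ 2 = (1 + μ ^ 2) + (-2 * μ * f x +
        (-2 * ∑ j, X j x * f x + (2 * μ * ∑ j, X j x + (∑ j, X j x) ^ 2))) := by
      intro x
      rw [← sum_mul]
      rcases hf x with h | h <;> rw [h] <;> ring
    rw [he, Ex_congr this]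
    simp only [Ex_add, Ex_mul, Ex_const, Ex_sum, orth hd h0, fX, h0, sum_const_zero]
    rw [← hμd, ← hVd]; ring
  have eε : e ≤ ε := by linarith
  have hΦ := phi_bd hd h0 hb (by nlinarith [sq_nonneg μ]) μ (abs_le.2 ⟨m1, by linarith⟩) f hf
  rw [← he] at hΦ
  by_cases c1 : μ ≤ -23 / 24
  · refine ⟨fun j x => 1 / 2 < X j x, fun j x y h => by beta_reduce; rw [hd j x y h], fun o o1 o2 => ?_⟩
    have := caseA hd h0 μ c1 m1 (by nlinarith) f hf
    rw [← he] at this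
    rw [Ex_congr (v := fun x => (f x - (if ∃ j, 1 / 2 < X j x then 1 else -1)) ^ 2)]
    · linarith
    · intro x
      split_ifs with h
      · rw [o1 x h]
      · rw [o2 x h]
  by_cases c2 : 1 / 48 ≤ V
  · obtain ⟨k, hk⟩ := caseB hd h0 μ c2 f hf
    rw [← he] at hk
    refine ⟨fun j x => j = k ∧ 0 < μ + X j x, fun j x y h => by beta_reduce; rw [hd j x y h],
      fun o o1 o2 => ?_⟩
    rw [Ex_congr (v := fun x => (f x - (if 0 < μ + X k x then 1 else -1)) ^ 2)]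
    · linarith
    · intro x
      split_ifs with h
      · rw [o1 x ⟨k, rfl, h⟩]
      · rw [o2 x (by rintro ⟨j, rfl, hj⟩; exact h hj)]
  · refine ⟨fun _ _ => False, fun _ _ _ _ => Iff.rfl, fun o _ o2 => ?_⟩
    have : Ex (fun x => (f x - o x) ^ 2) ≤ Ex (fun _ : Fin m → Bool => (4 : ℝ)) := by
      refine Ex_mono fun x => ?_
      rw [o2 x (by simp)]
      rcases hf x with h | h <;> rw [h] <;> norm_num
    rw [Ex_const] at this
    nlinarith

end Pool.Agent.H.MP_c2536d_co
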